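import Pool.Agent.Helper54.SR.Defs

/-!
# SR-C4: extending crossed homomorphisms

The crossed homomorphisms on a subgroup `N` with values in `Lˣ` are the sections over `N` of the
projection of the semidirect product. A section over `N` extends to `N ⊔ zpowers τ` if there is an
element `T` over `τ` with `T s(g) T⁻¹ = s(τ g τ⁻¹)` and `T ^ ℓ = s(τ ^ ℓ)`.
-/

set_option autoImplicit false

namespace Pool.Agent.Helper54.SR

section h46group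

variable {G Γ : Type} [Group G] [Group Γ]

private theorem h46_one {N : Subgroup Γ} {s : Γ → G}
    (hs : ∀ g ∈ N, ∀ h ∈ N, s (g * h) = s g * s h) : s 1 = 1 := by
  have h := hs 1 N.one_mem 1 N.one_mem
  rw [mul_one] at h
  exact left_eq_mul.1 h

private theorem h46_inv {N : Subgroup Γ} {s : Γ → G}
    (hs : ∀ g ∈ N, ∀ h ∈ N, s (g * h) = s g * s h) {g : Γ} (hg : g ∈ N) : s g⁻¹ = (s g)⁻¹ := by
  have h := hs g hg g⁻¹ (N.inv_mem hg)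
  rw [mul_inv_cancel, h46_one hs] at h
  exact (eq_inv_of_mul_eq_one_right h.symm)

private theorem h46_pow {N : Subgroup Γ} {s : Γ → G}
    (hs : ∀ g ∈ N, ∀ h ∈ N, s (g * h) = s g * s h) {g : Γ} (hg : g ∈ N) (n : ℕ) :
    s (g ^ n) = s g ^ n := by
  induction n with
  | zero => rw [pow_zero, pow_zero, h46_one hs]
  | succ n ih => rw [pow_succ, pow_succ, hs _ (N.pow_mem hg n) _ hg, ih]

private theorem h46_zpow {N : Subgroup Γ} {s : Γ → G}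
    (hs : ∀ g ∈ N, ∀ h ∈ N, s (g * h) = s g * s h) {g : Γ} (hg : g ∈ N) (n : ℤ) :
    s (g ^ n) = s g ^ n := by
  obtain ⟨m, rfl | rfl⟩ := n.eq_nat_or_neg
  · rw [zpow_natCast, zpow_natCast, h46_pow hs hg]
  · rw [zpow_neg, zpow_neg, zpow_natCast, zpow_natCast, h46_inv hs (N.pow_mem hg m), h46_pow hs hg]

private theorem h46_dvd {N : Subgroup Γ} {ℓ : ℕ} (hℓ : ℓ.Prime) {τ : Γ} (hτN : τ ∉ N)
    (hτℓ : τ ^ ℓ ∈ N) {m : ℤ} (hm : τ ^ m ∈ N) : (ℓ : ℤ) ∣ m := by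
  by_contra hd
  have hcop : IsCoprime (ℓ : ℤ) m :=
    (Int.prime_iff_natAbs_prime.2 (by simpa using hℓ)).coprime_iff_not_dvd.2 hd
  obtain ⟨a, b, hab⟩ := hcop
  apply hτN
  have h1 : τ = (τ ^ ℓ) ^ a * (τ ^ m) ^ b := by
    rw [← zpow_natCast τ ℓ, ← zpow_mul, ← zpow_mul, ← zpow_add, mul_comm (ℓ : ℤ) a, mul_comm m b, hab,
      zpow_one]
  rw [h1]
  exact N.mul_mem (N.zpow_mem hτℓ a) (N.zpow_mem hm b)

private theorem h46_conj_mem {N : Subgroup Γ} {τ : Γ} (hτ : ∀ g, g ∈ N ↔ τ * g * τ⁻¹ ∈ N)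
    (i : ℤ) : ∀ g, g ∈ N ↔ τ ^ i * g * (τ ^ i)⁻¹ ∈ N := by
  induction i using Int.induction_on with
  | zero => intro g; simp
  | succ n ih =>
    intro g
    rw [ih g, hτ]
    rw [show τ * (τ ^ (n : ℤ) * g * (τ ^ (n : ℤ))⁻¹) * τ⁻¹ =
      τ ^ ((n : ℤ) + 1) * g * (τ ^ ((n : ℤ) + 1))⁻¹ by group]
  | pred n ih =>
    intro g
    rw [hτ (τ ^ (-(n : ℤ) - 1) * g * (τ ^ (-(n : ℤ) - 1))⁻¹), ih g]
    rw [show τ * (τ ^ (-(n : ℤ) - 1) * g * (τ ^ (-(n : ℤ) - 1))⁻¹) * τ⁻¹ =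
      τ ^ (-(n : ℤ)) * g * (τ ^ (-(n : ℤ)))⁻¹ by group]

private theorem h46_conj {N : Subgroup Γ} {τ : Γ} (hτ : ∀ g, g ∈ N ↔ τ * g * τ⁻¹ ∈ N)
    {s : Γ → G} {T : G} (hT : ∀ g ∈ N, T * s g * T⁻¹ = s (τ * g * τ⁻¹)) (i : ℤ) :
    ∀ g ∈ N, T ^ i * s g * (T ^ i)⁻¹ = s (τ ^ i * g * (τ ^ i)⁻¹) := by
  induction i using Int.induction_on with
  | zero => intro g _; simp
  | succ n ih =>
    intro g hg
    rw [show T ^ ((n : ℤ) + 1) * s g * (T ^ ((n : ℤ) + 1))⁻¹ =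
      T * (T ^ (n : ℤ) * s g * (T ^ (n : ℤ))⁻¹) * T⁻¹ by group, ih g hg,
      hT _ ((h46_conj_mem hτ n g).1 hg)]
    congr 1
    group
  | pred n ih =>
    intro g hg
    have h1 : τ ^ (-(n : ℤ) - 1) * g * (τ ^ (-(n : ℤ) - 1))⁻¹ ∈ N :=
      (h46_conj_mem hτ _ g).1 hg
    have h2 := hT _ h1
    rw [show τ * (τ ^ (-(n : ℤ) - 1) * g * (τ ^ (-(n : ℤ) - 1))⁻¹) * τ⁻¹ =
      τ ^ (-(n : ℤ)) * g * (τ ^ (-(n : ℤ)))⁻¹ by group, ← ih g hg] at h2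
    have h3 : s (τ ^ (-(n : ℤ) - 1) * g * (τ ^ (-(n : ℤ) - 1))⁻¹) =
        T⁻¹ * (T ^ (-(n : ℤ)) * s g * (T ^ (-(n : ℤ)))⁻¹) * T := by
      rw [← h2]; group
    rw [h3]
    group

/-- extension of a section -/
private theorem h46_extend {π : G →* Γ} {ℓ : ℕ} (hℓ : ℓ.Prime) {N N' : Subgroup Γ} {τ : Γ}
    (hτN : τ ∉ N) (hN' : N' = N ⊔ Subgroup.zpowers τ) (hτ : ∀ g, g ∈ N ↔ τ * g * τ⁻¹ ∈ N)
    (hτℓ : τ ^ ℓ ∈ N) {s : Γ → G} (hs : ∀ g ∈ N, ∀ h ∈ N, s (g * h) = s g * s h)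
    (hπ : ∀ g ∈ N, π (s g) = g) {T : G} (hπT : π T = τ)
    (hT : ∀ g ∈ N, T * s g * T⁻¹ = s (τ * g * τ⁻¹)) (hTℓ : T ^ ℓ = s (τ ^ ℓ)) :
    ∃ s' : Γ → G, (∀ g ∈ N', π (s' g) = g) ∧
      (∀ g ∈ N', ∀ h ∈ N', s' (g * h) = s' g * s' h) ∧ ∀ g ∈ N, s' g = s g := by
  classical
  -- powers of `τ` in `N`
  have hpow : ∀ m : ℤ, τ ^ m ∈ N → s (τ ^ m) = T ^ m := by
    intro m hm
    obtain ⟨q, rfl⟩ := h46_dvd hℓ hτN hτℓ hm
    rw [zpow_mul, zpow_natCast, h46_zpow hs hτℓ, ← hTℓ, zpow_mul, zpow_natCast]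
  have hwd : ∀ (g h : Γ) (i j : ℤ), g ∈ N → h ∈ N → g * τ ^ i = h * τ ^ j →
      s g * T ^ i = s h * T ^ j := by
    intro g h i j hg hh hgh
    have h1 : h⁻¹ * g = τ ^ (j - i) := by
      have h2 : h⁻¹ * (g * τ ^ i) = τ ^ j := by rw [hgh]; group
      rw [← mul_assoc] at h2
      rw [zpow_sub, ← h2]; group
    have h3 : τ ^ (j - i) ∈ N := h1 ▸ N.mul_mem (N.inv_mem hh) hg
    have h4 := hpow _ h3
    rw [← h1, hs _ (N.inv_mem hh) _ hg, h46_inv hs hh, zpow_sub] at h4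
    have h5 : s g = s h * (T ^ j * (T ^ i)⁻¹) := by rw [← h4]; group
    rw [h5]; group
  -- the subgroup generated by `N` and `τ`
  have hconjT : ∀ (i : ℤ) (g : Γ), g ∈ N → T ^ i * s g = s (τ ^ i * g * (τ ^ i)⁻¹) * T ^ i := by
    intro i g hg
    rw [← h46_conj hτ hT i g hg]; group
  have hmemN' : ∀ g ∈ N', ∃ (n : Γ) (i : ℤ), n ∈ N ∧ g = n * τ ^ i := by
    let K : Subgroup Γ :=
      { carrier := {g | ∃ (n : Γ) (i : ℤ), n ∈ N ∧ g = n * τ ^ i}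
        one_mem' := ⟨1, 0, N.one_mem, by simp⟩
        mul_mem' := by
          rintro _ _ ⟨n, i, hn, rfl⟩ ⟨m, j, hm, rfl⟩
          refine ⟨n * (τ ^ i * m * (τ ^ i)⁻¹), i + j, N.mul_mem hn ((h46_conj_mem hτ i m).1 hm), ?_⟩
          rw [zpow_add]; group
        inv_mem' := by
          rintro _ ⟨n, i, hn, rfl⟩
          refine ⟨τ ^ (-i) * n⁻¹ * (τ ^ (-i))⁻¹, -i, (h46_conj_mem hτ (-i) _).1 (N.inv_mem hn), ?_⟩
          group }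
    have hK : N' ≤ K := by
      rw [hN']
      refine sup_le (fun g hg => ⟨g, 0, hg, by simp⟩) ?_
      rw [Subgroup.zpowers_le]
      exact ⟨1, 1, N.one_mem, by simp⟩
    exact fun g hg => hK hg
  let s' : Γ → G := fun g =>
    if h : ∃ p : Γ × ℤ, p.1 ∈ N ∧ g = p.1 * τ ^ p.2 then s h.choose.1 * T ^ h.choose.2 else 1
  have hs' : ∀ (n : Γ) (i : ℤ), n ∈ N → s' (n * τ ^ i) = s n * T ^ i := by
    intro n i hn
    have h : ∃ p : Γ × ℤ, p.1 ∈ N ∧ n * τ ^ i = p.1 * τ ^ p.2 := ⟨(n, i), hn, rfl⟩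
    have h1 : s' (n * τ ^ i) = s h.choose.1 * T ^ h.choose.2 := dif_pos h
    rw [h1]
    exact hwd _ _ _ _ h.choose_spec.1 hn h.choose_spec.2.symm
  refine ⟨s', ?_, ?_, ?_⟩
  · intro g hg
    obtain ⟨n, i, hn, rfl⟩ := hmemN' g hg
    rw [hs' n i hn, map_mul, map_zpow, hπ n hn, hπT]
  · intro g hg h hh
    obtain ⟨n, i, hn, rfl⟩ := hmemN' g hg
    obtain ⟨m, j, hm, rfl⟩ := hmemN' h hh
    have h1 : n * τ ^ i * (m * τ ^ j) = (n * (τ ^ i * m * (τ ^ i)⁻¹)) * τ ^ (i + j) := by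
      rw [zpow_add]; group
    have h2 : τ ^ i * m * (τ ^ i)⁻¹ ∈ N := (h46_conj_mem hτ i m).1 hm
    rw [h1, hs' _ _ (N.mul_mem hn h2), hs' n i hn, hs' m j hm, hs n hn _ h2, zpow_add]
    have h3 := hconjT i m hm
    calc s n * s (τ ^ i * m * (τ ^ i)⁻¹) * (T ^ i * T ^ j)
        = s n * (s (τ ^ i * m * (τ ^ i)⁻¹) * T ^ i) * T ^ j := by group
      _ = s n * (T ^ i * s m) * T ^ j := by rw [h3]
      _ = s n * T ^ i * (s m * T ^ j) := by group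
  · intro g hg
    have := hs' g 0 hg
    simpa using this

end h46group

section h46field

variable {L Γ : Type} [Field L] [Group Γ]

/-- the action on units -/
private def h46phi (act : Γ →* (L ≃+* L)) : Γ →* MulAut Lˣ where
  toFun g := Units.mapEquiv (act g : L ≃* L)
  map_one' := by ext; simp
  map_mul' g h := by ext; simp

private theorem h46phi_coe (act : Γ →* (L ≃+* L)) (g : Γ) (x : Lˣ) :
    ((h46phi act g x : Lˣ) : L) = act g x := rfl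

private theorem h46_T_pow (act : Γ →* (L ≃+* L)) (x : Lˣ) (τ : Γ) (n : ℕ) :
    (⟨x, τ⟩ : Lˣ ⋊[h46phi act] Γ) ^ n =
      ⟨∏ i ∈ Finset.range n, h46phi act (τ ^ i) x, τ ^ n⟩ := by
  induction n with
  | zero =>
    rw [pow_zero, pow_zero, Finset.prod_range_zero]
    rfl
  | succ n ih =>
    rw [pow_succ, ih, SemidirectProduct.mul_def, Finset.prod_range_succ, pow_succ τ n]

private theorem h46_mk_mul (act : Γ →* (L ≃+* L)) (x y : Lˣ) (g h : Γ) :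
    (⟨x, g⟩ : Lˣ ⋊[h46phi act] Γ) * ⟨y, h⟩ = ⟨x * h46phi act g y, g * h⟩ := rfl

end h46field

/-- SR-C4a: extending a crossed homomorphism by one step -/
theorem extend_crossed {L Γ : Type} [Field L] [Group Γ] [Finite Γ] {ℓ : ℕ} (hℓ : ℓ.Prime)
    (act : Γ →* (L ≃+* L)) (Z N N' : Subgroup Γ) (hZN : Z ≤ N)
    (hZc : ∀ z ∈ Z, ∀ g, z * g = g * z) (hker : ∀ g, act g = 1 ↔ g ∈ Z) (τ : Γ) (hτN : τ ∉ N)
    (hN' : N' = N ⊔ Subgroup.zpowers τ)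
    (hτ : ∀ g, g ∈ N ↔ τ * g * τ⁻¹ ∈ N) (hτℓ : τ ^ ℓ ∈ N)
    (hnorm : ∀ a : L, (∀ g ∈ N, act g a = a) → act τ a = a →
      ∃ e : L, (∀ g ∈ N, act g e = e) ∧ ∏ i ∈ Finset.range ℓ, act (τ ^ i) e = a)
    (h90 : ∀ c : N → L, (∀ g, c g ≠ 0) → (∀ g h : N, c (g * h) = c g * act (g : Γ) (c h)) →
      (∀ g : N, act (g : Γ) = 1 → c g = 1) → ∃ x : L, x ≠ 0 ∧ ∀ g : N, act (g : Γ) x = c g * x)
    (ζ : Γ → L) (hζ : ∀ g, ∀ z ∈ Z, act g (ζ z) = ζ z)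
    (b : Γ → L) (hb0 : ∀ g ∈ N, b g ≠ 0) (hb : ∀ g ∈ N, ∀ h ∈ N, b (g * h) = b g * act g (b h))
    (hbZ : ∀ z ∈ Z, b z = ζ z) :
    ∃ b' : Γ → L, (∀ g ∈ N', b' g ≠ 0) ∧
      (∀ g ∈ N', ∀ h ∈ N', b' (g * h) = b' g * act g (b' h)) ∧ ∀ z ∈ Z, b' z = ζ z := by
  classical
  -- the section
  let bu : Γ → Lˣ := fun g => if h : b g ≠ 0 then Units.mk0 (b g) h else 1
  have hbu : ∀ g ∈ N, ((bu g : Lˣ) : L) = b g := by
    intro g hg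
    have : bu g = Units.mk0 (b g) (hb0 g hg) := dif_pos (hb0 g hg)
    rw [this, Units.val_mk0]
  let s : Γ → Lˣ ⋊[h46phi act] Γ := fun g => ⟨bu g, g⟩
  have hs : ∀ g ∈ N, ∀ h ∈ N, s (g * h) = s g * s h := by
    intro g hg h hh
    rw [h46_mk_mul]
    change (⟨bu (g * h), g * h⟩ : Lˣ ⋊[h46phi act] Γ) = _
    congr 1
    ext
    rw [hbu _ (N.mul_mem hg hh), hb g hg h hh, Units.val_mul, hbu g hg, h46phi_coe, hbu h hh]
  -- conjugation by `τ⁻¹`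
  have hτ' : ∀ g, g ∈ N → τ⁻¹ * g * τ ∈ N := by
    intro g hg
    rw [hτ]
    rwa [show τ * (τ⁻¹ * g * τ) * τ⁻¹ = g by group]
  -- the crossed homomorphism `q`
  let q : N → L := fun g => act τ (b (τ⁻¹ * (g : Γ) * τ)) / b (g : Γ)
  have hq0 : ∀ g, q g ≠ 0 := by
    intro g
    refine div_ne_zero ?_ (hb0 _ g.2)
    rw [Ne, map_eq_zero_iff _ (act τ).injective]
    exact hb0 _ (hτ' _ g.2)
  have hact_mul : ∀ (g h : Γ) (x : L), act (g * h) x = act g (act h x) := by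
    intro g h x
    rw [map_mul]
    rfl
  have hq : ∀ g h : N, q (g * h) = q g * act (g : Γ) (q h) := by
    intro g h
    have h1 : τ⁻¹ * ((g * h : N) : Γ) * τ = (τ⁻¹ * (g : Γ) * τ) * (τ⁻¹ * (h : Γ) * τ) := by
      rw [Subgroup.coe_mul]; group
    have h2 : act τ (b (τ⁻¹ * ((g * h : N) : Γ) * τ)) =
        act τ (b (τ⁻¹ * (g : Γ) * τ)) * act (g : Γ) (act τ (b (τ⁻¹ * (h : Γ) * τ))) := by
      rw [h1, hb _ (hτ' _ g.2) _ (hτ' _ h.2), map_mul, ← hact_mul, ← hact_mul]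
      congr 2
      group
    change act τ (b (τ⁻¹ * ((g * h : N) : Γ) * τ)) / b ((g * h : N) : Γ) =
      act τ (b (τ⁻¹ * (g : Γ) * τ)) / b (g : Γ) *
        act (g : Γ) (act τ (b (τ⁻¹ * (h : Γ) * τ)) / b (h : Γ))
    rw [h2, Subgroup.coe_mul, hb _ g.2 _ h.2, map_div₀]
    have h3 := hb0 _ g.2
    have h4 : act (g : Γ) (b (h : Γ)) ≠ 0 := by
      rw [Ne, map_eq_zero_iff _ (act (g : Γ)).injective]
      exact hb0 _ h.2
    field_simp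
  have hqZ : ∀ g : N, act (g : Γ) = 1 → q g = 1 := by
    intro g hg
    have hz : (g : Γ) ∈ Z := (hker _).1 hg
    have h1 : τ⁻¹ * (g : Γ) * τ = g := by
      rw [mul_assoc, hZc _ hz]; group
    change act τ (b (τ⁻¹ * (g : Γ) * τ)) / b (g : Γ) = 1
    rw [h1, hbZ _ hz, hζ _ _ hz, ← hbZ _ hz]
    exact div_self (hb0 _ g.2)
  obtain ⟨c, hc0, hc⟩ := h90 q hq0 hq hqZ
  let cu : Lˣ := Units.mk0 c hc0
  let Tc : Lˣ ⋊[h46phi act] Γ := ⟨cu, τ⟩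
  -- conjugation
  have hTc : ∀ g ∈ N, Tc * s g * Tc⁻¹ = s (τ * g * τ⁻¹) := by
    intro g hg
    have hg' := (hτ g).1 hg
    rw [mul_inv_eq_iff_eq_mul]
    have h1 := hc ⟨τ * g * τ⁻¹, hg'⟩
    have h2 : q ⟨τ * g * τ⁻¹, hg'⟩ = act τ (b g) / b (τ * g * τ⁻¹) := by
      change act τ (b (τ⁻¹ * (τ * g * τ⁻¹) * τ)) / b (τ * g * τ⁻¹) = _
      rw [show τ⁻¹ * (τ * g * τ⁻¹) * τ = g by group]
    rw [h2] at h1
    change (⟨cu, τ⟩ : Lˣ ⋊[h46phi act] Γ) * ⟨bu g, g⟩ = ⟨bu (τ * g * τ⁻¹), τ * g * τ⁻¹⟩ * ⟨cu, τ⟩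
    rw [h46_mk_mul, h46_mk_mul]
    congr 1
    · ext
      rw [Units.val_mul, Units.val_mul, h46phi_coe, h46phi_coe, hbu g hg, hbu _ hg']
      change c * act τ (b g) = b (τ * g * τ⁻¹) * act (τ * g * τ⁻¹) c
      have h3 : act (τ * g * τ⁻¹) c = act τ (b g) / b (τ * g * τ⁻¹) * c := h1
      rw [h3]
      have h4 := hb0 _ hg'
      field_simp
    · group
  -- the element `a`
  set n₀ : Γ := τ ^ ℓ with hn₀
  let Nc : Lˣ := ∏ i ∈ Finset.range ℓ, h46phi act (τ ^ i) cu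
  have hTcℓ : Tc ^ ℓ = ⟨Nc, n₀⟩ := h46_T_pow act cu τ ℓ
  let au : Lˣ := bu n₀ * Nc⁻¹
  have hA : s n₀ = ⟨au, 1⟩ * Tc ^ ℓ := by
    rw [hTcℓ, h46_mk_mul]
    change (⟨bu n₀, n₀⟩ : Lˣ ⋊[h46phi act] Γ) = _
    congr 1
    · rw [map_one]
      change bu n₀ = bu n₀ * Nc⁻¹ * Nc
      group
    · group
  have hA' : (⟨au, 1⟩ : Lˣ ⋊[h46phi act] Γ) = s n₀ * (Tc ^ ℓ)⁻¹ := by rw [hA]; group
  have hconj := h46_conj (N := N) (s := s) hτ hTc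
  have haN : ∀ g ∈ N, act g (au : L) = au := by
    intro g hg
    have h1 : (⟨au, 1⟩ : Lˣ ⋊[h46phi act] Γ) * s g = s g * ⟨au, 1⟩ := by
      have h2 := hconj (-(ℓ : ℤ)) g hg
      have h3 : (Tc ^ (-(ℓ : ℤ))) = (Tc ^ ℓ)⁻¹ := by rw [zpow_neg, zpow_natCast]
      have h4 : (τ ^ (-(ℓ : ℤ))) = n₀⁻¹ := by rw [zpow_neg, zpow_natCast]
      rw [h3, h4, inv_inv, inv_inv, hs _ (N.mul_mem (N.inv_mem hτℓ) hg) _ hτℓ,
        hs _ (N.inv_mem hτℓ) _ hg, h46_inv hs hτℓ] at h2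
      rw [hA']
      calc s n₀ * (Tc ^ ℓ)⁻¹ * s g = s n₀ * ((Tc ^ ℓ)⁻¹ * s g * Tc ^ ℓ) * (Tc ^ ℓ)⁻¹ := by group
        _ = s n₀ * ((s n₀)⁻¹ * s g * s n₀) * (Tc ^ ℓ)⁻¹ := by rw [h2]
        _ = s g * (s n₀ * (Tc ^ ℓ)⁻¹) := by group
    have h5 := congrArg (fun w : Lˣ ⋊[h46phi act] Γ => (w.left : L)) h1
    change (((au * h46phi act 1 (bu g) : Lˣ)) : L) = ((bu g * h46phi act g au : Lˣ) : L) at h5
    rw [map_one] at h5
    change (au : L) * (bu g : L) = (bu g : L) * act g (au : L) at h5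
    rw [mul_comm] at h5
    exact (mul_left_cancel₀ (bu g).ne_zero h5).symm
  have haτ : act τ (au : L) = au := by
    have h1 : Tc * (⟨au, 1⟩ : Lˣ ⋊[h46phi act] Γ) * Tc⁻¹ = ⟨au, 1⟩ := by
      have h2 := hTc n₀ hτℓ
      have h3 : τ * n₀ * τ⁻¹ = n₀ := by rw [hn₀]; group
      rw [h3] at h2
      rw [hA']
      calc Tc * (s n₀ * (Tc ^ ℓ)⁻¹) * Tc⁻¹ = (Tc * s n₀ * Tc⁻¹) * (Tc ^ ℓ)⁻¹ := by group
        _ = s n₀ * (Tc ^ ℓ)⁻¹ := by rw [h2]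
    rw [mul_inv_eq_iff_eq_mul] at h1
    have h5 := congrArg (fun w : Lˣ ⋊[h46phi act] Γ => (w.left : L)) h1
    change (((cu * h46phi act τ au : Lˣ)) : L) = ((au * h46phi act 1 cu : Lˣ) : L) at h5
    rw [map_one] at h5
    change (cu : L) * act τ (au : L) = (au : L) * (cu : L) at h5
    rw [mul_comm (au : L)] at h5
    exact mul_left_cancel₀ cu.ne_zero h5
  obtain ⟨e, heN, hea⟩ := hnorm au haN haτ
  have he0 : e ≠ 0 := by
    rintro rfl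
    have h1 : ∏ i ∈ Finset.range ℓ, act (τ ^ i) (0 : L) = 0 := by
      refine Finset.prod_eq_zero (Finset.mem_range.2 hℓ.pos) (map_zero _)
    rw [h1] at hea
    exact au.ne_zero hea.symm
  let eu : Lˣ := Units.mk0 e he0
  let T : Lˣ ⋊[h46phi act] Γ := ⟨cu * eu, τ⟩
  have hTeq : T = ⟨eu, 1⟩ * Tc := by
    change T = (⟨eu, 1⟩ : Lˣ ⋊[h46phi act] Γ) * ⟨cu, τ⟩
    rw [h46_mk_mul, map_one]
    change (⟨cu * eu, τ⟩ : Lˣ ⋊[h46phi act] Γ) = ⟨eu * cu, 1 * τ⟩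
    rw [mul_comm, one_mul]
  have hes : ∀ g ∈ N, (⟨eu, 1⟩ : Lˣ ⋊[h46phi act] Γ) * s g = s g * ⟨eu, 1⟩ := by
    intro g hg
    change (⟨eu, 1⟩ : Lˣ ⋊[h46phi act] Γ) * ⟨bu g, g⟩ = ⟨bu g, g⟩ * ⟨eu, 1⟩
    rw [h46_mk_mul, h46_mk_mul, map_one]
    congr 1
    · change eu * bu g = bu g * h46phi act g eu
      have h1 : h46phi act g eu = eu := by
        ext
        rw [h46phi_coe]
        exact heN g hg
      rw [h1, mul_comm]
    · group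
  have hT : ∀ g ∈ N, T * s g * T⁻¹ = s (τ * g * τ⁻¹) := by
    intro g hg
    have h1 := hTc g hg
    have h2 := hes _ ((hτ g).1 hg)
    rw [hTeq]
    calc (⟨eu, 1⟩ * Tc) * s g * (⟨eu, 1⟩ * Tc)⁻¹
        = ⟨eu, 1⟩ * (Tc * s g * Tc⁻¹) * (⟨eu, 1⟩ : Lˣ ⋊[h46phi act] Γ)⁻¹ := by group
      _ = (⟨eu, 1⟩ * s (τ * g * τ⁻¹)) * (⟨eu, 1⟩ : Lˣ ⋊[h46phi act] Γ)⁻¹ := by rw [h1]
      _ = s (τ * g * τ⁻¹) := by rw [h2]; group
  have hTℓ : T ^ ℓ = s (τ ^ ℓ) := by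
    rw [← hn₀]
    change (⟨cu * eu, τ⟩ : Lˣ ⋊[h46phi act] Γ) ^ ℓ = ⟨bu n₀, n₀⟩
    rw [h46_T_pow]
    congr 1
    have h1 : ∏ i ∈ Finset.range ℓ, h46phi act (τ ^ i) (cu * eu) =
        Nc * ∏ i ∈ Finset.range ℓ, h46phi act (τ ^ i) eu := by
      rw [← Finset.prod_mul_distrib]
      exact Finset.prod_congr rfl fun i _ => map_mul _ _ _
    have h2 : ∏ i ∈ Finset.range ℓ, h46phi act (τ ^ i) eu = au := by
      ext
      rw [← hea, Units.coe_prod]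
      exact Finset.prod_congr rfl fun i _ => h46phi_coe act _ _
    rw [h1, h2]
    change Nc * (bu n₀ * Nc⁻¹) = bu n₀
    rw [mul_comm (bu n₀)]; group
  obtain ⟨s', hπ', hs', hext⟩ := h46_extend (π := SemidirectProduct.rightHom) hℓ hτN hN' hτ hτℓ hs
    (fun g _ => rfl) (T := T) rfl hT hTℓ
  refine ⟨fun g => ((s' g).left : L), fun g _ => (s' g).left.ne_zero, ?_, ?_⟩
  · intro g hg h hh
    change ((s' (g * h)).left : L) = (s' g).left * act g ((s' h).left : L)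
    have h1 : (s' g).right = g := hπ' g hg
    rw [hs' g hg h hh, SemidirectProduct.mul_left, Units.val_mul, h46phi_coe, h1]
  · intro z hz
    change ((s' z).left : L) = ζ z
    rw [hext z (hZN hz), ← hbZ z hz, ← hbu z (hZN hz)]

private theorem h46_hilbert90 {L Γ : Type} [Field L] [Group Γ] [Finite Γ] (act : Γ →* (L ≃+* L))
    (c : Γ → L) (hc0 : ∀ g, c g ≠ 0) (hc : ∀ g h, c (g * h) = c g * act g (c h))
    (hker : ∀ g, act g = 1 → c g = 1) : ∃ x : L, x ≠ 0 ∧ ∀ g, act g x = c g * x := by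
  classical
  have hfin : Finite act.range := Set.Finite.to_subtype (Set.finite_range act)
  have hft : Fintype act.range := Fintype.ofFinite _
  have hr : ∀ σ : act.range, ∃ g : Γ, act g = σ := fun σ => σ.2
  choose r hr using hr
  have hcc : ∀ g h : Γ, act g = act h → c g = c h := by
    intro g h hgh
    have h1 : act (g⁻¹ * h) = 1 := by rw [map_mul, map_inv, hgh, inv_mul_cancel]
    have h2 := hc g (g⁻¹ * h)
    rw [hker _ h1, map_one, mul_one, mul_inv_cancel_left] at h2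
    exact h2.symm
  let F : act.range → (L →* L) := fun σ => ((σ : L ≃+* L) : L →* L)
  have hF : Function.Injective F := by
    intro σ τ h
    apply Subtype.ext
    ext x
    exact DFunLike.congr_fun h x
  have hli : LinearIndependent L (fun σ : act.range => (F σ : L → L)) :=
    (linearIndependent_monoidHom L L).comp F hF
  have hex : ∃ θ : L, ∑ σ : act.range, c (r σ) * (σ : L ≃+* L) θ ≠ 0 := by
    by_contra hcon
    push Not at hcon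
    have h1 := Fintype.linearIndependent_iff.1 hli (fun σ => c (r σ)) (by
      funext θ
      rw [Finset.sum_apply]
      exact hcon θ) ⟨1, act.range.one_mem⟩
    exact hc0 _ h1
  obtain ⟨θ, hθ⟩ := hex
  set y : L := ∑ σ : act.range, c (r σ) * (σ : L ≃+* L) θ with hy
  refine ⟨y⁻¹, inv_ne_zero hθ, fun g => ?_⟩
  have h1 : c g * act g y = y := by
    rw [hy, map_sum, Finset.mul_sum]
    let m : act.range ≃ act.range := Equiv.mulLeft ⟨act g, ⟨g, rfl⟩⟩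
    rw [← Equiv.sum_comp m (fun σ : act.range => c (r σ) * (σ : L ≃+* L) θ)]
    refine Finset.sum_congr rfl fun σ _ => ?_
    have h2 : c (r (m σ)) = c (g * r σ) := by
      apply hcc
      rw [hr, map_mul, hr]
      rfl
    rw [h2, hc, map_mul, ← mul_assoc]
    rfl
  have h2 : act g y ≠ 0 := by rwa [Ne, map_eq_zero_iff _ (act g).injective]
  rw [map_inv₀]
  have h3 := hc0 g
  have h4 : y⁻¹ = (c g)⁻¹ * (act g y)⁻¹ := by rw [← mul_inv, h1]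
  rw [h4, mul_inv_cancel_left₀ h3]

/-- SR-C4b -/
theorem exists_crossed {L Γ : Type} [Field L] [Group Γ] [Finite Γ] {ℓ : ℕ} (hℓ : ℓ.Prime)
    (hΓ : IsPGroup ℓ Γ) (act : Γ →* (L ≃+* L)) (Z : Subgroup Γ)
    (hZc : ∀ z ∈ Z, ∀ g, z * g = g * z) (hker : ∀ g, act g = 1 ↔ g ∈ Z)
    (hnorm : ∀ (N : Subgroup Γ) (τ : Γ), Z ≤ N → (∀ g, g ∈ N ↔ τ * g * τ⁻¹ ∈ N) → τ ^ ℓ ∈ N →
      τ ∉ N → ∀ a : L, (∀ g ∈ N, act g a = a) → act τ a = a →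
      ∃ e : L, (∀ g ∈ N, act g e = e) ∧ ∏ i ∈ Finset.range ℓ, act (τ ^ i) e = a)
    (ζ : Γ → L) (hζ : ∀ g, ∀ z ∈ Z, act g (ζ z) = ζ z) (hζ0 : ∀ z ∈ Z, ζ z ≠ 0)
    (hζm : ∀ z ∈ Z, ∀ w ∈ Z, ζ (z * w) = ζ z * ζ w) :
    ∃ b : Γ → L, (∀ g, b g ≠ 0) ∧ (∀ g h, b (g * h) = b g * act g (b h)) ∧
      ∀ z ∈ Z, b z = ζ z := by
  classical
  have : Fact ℓ.Prime := ⟨hℓ⟩
  have : Group.IsNilpotent Γ := hΓ.isNilpotent
  let 𝒮 : Set (Subgroup Γ) := {N | Z ≤ N ∧ ∃ b : Γ → L, (∀ g ∈ N, b g ≠ 0) ∧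
    (∀ g ∈ N, ∀ h ∈ N, b (g * h) = b g * act g (b h)) ∧ ∀ z ∈ Z, b z = ζ z}
  have hne : 𝒮.Nonempty := by
    refine ⟨Z, le_refl _, ζ, hζ0, fun g hg h hh => ?_, fun _ _ => rfl⟩
    rw [hζm g hg h hh, (hker g).2 hg]
    rfl
  obtain ⟨N, hN⟩ := (Set.toFinite 𝒮).exists_maximal hne
  obtain ⟨⟨hZN, b, hb0, hb, hbZ⟩, hmax⟩ := hN
  have hNtop : N = ⊤ := by
    by_contra hNtop
    have hlt : N < Subgroup.normalizer (N : Set Γ) :=
      Group.normalizerCondition_of_isNilpotent N (lt_top_iff_ne_top.2 hNtop)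
    obtain ⟨τ₀, hτ₀, hτ₀N⟩ := SetLike.exists_of_lt hlt
    -- a power of `τ₀` of order `ℓ` modulo `N`
    obtain ⟨n, hn⟩ := hΓ τ₀
    have hex : ∃ k : ℕ, τ₀ ^ ℓ ^ k ∈ N := ⟨n, by rw [hn]; exact N.one_mem⟩
    have hk := Nat.find_spec hex
    set k := Nat.find hex with hkdef
    have hk0 : k ≠ 0 := by
      intro h0
      rw [h0, pow_zero, pow_one] at hk
      exact hτ₀N hk
    obtain ⟨k', hk'⟩ := Nat.exists_eq_succ_of_ne_zero hk0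
    have hk1 : τ₀ ^ ℓ ^ k' ∉ N := Nat.find_min hex (by omega)
    set τ := τ₀ ^ ℓ ^ k' with hτdef
    have hτℓ : τ ^ ℓ ∈ N := by
      rw [hτdef, ← pow_mul, ← pow_succ, ← Nat.succ_eq_add_one, ← hk']
      exact hk
    have hτ : ∀ g, g ∈ N ↔ τ * g * τ⁻¹ ∈ N :=
      Subgroup.mem_normalizer_iff.1 (Subgroup.pow_mem _ hτ₀ _)
    have h2 : N ⊔ Subgroup.zpowers τ ∈ 𝒮 := by
      refine ⟨hZN.trans le_sup_left, ?_⟩
      exact extend_crossed hℓ act Z N _ hZN hZc hker τ hk1 rfl hτ hτℓ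
        (hnorm N τ hZN hτ hτℓ hk1)
        (fun c hc0 hc hc1 => h46_hilbert90 (act.comp N.subtype) c hc0 hc hc1)
        ζ hζ b hb0 hb hbZ
    have h3 := hmax h2 le_sup_left
    exact hk1 (h3 (Subgroup.mem_sup_right (Subgroup.mem_zpowers τ)))
  subst hNtop
  exact ⟨b, fun g => hb0 g (Subgroup.mem_top g),
    fun g h => hb g (Subgroup.mem_top g) h (Subgroup.mem_top h), hbZ⟩

end Pool.Agent.Helper54.SR
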